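import Mathlib
import Pool.Agent.H23.AECB

set_option autoImplicit false

namespace Pool.Agent.Results.MP_3eb4be_co.Exact
open Pool.Agent.H23.AEC

theorem result (l : ℕ) (hl : 1 ≤ l) : IsGreatest {t : ℕ | Forces l t} (l / 2 + 1) :=
  ⟨lower l hl, fun t ht => upper l hl t ht⟩

end Pool.Agent.Results.MP_3eb4be_co.Exact
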